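import Pool.Agent.H367.OS.GWu
import Pool.Graph.R_pool_sql_team_seeded_2aa45f1a.Results.MP_386e47_ag.CodimensionByCodimension

/-!
# The `p`-adic étale Abel-Jacobi map in one codimension and one sequence of cubics

A relation `r` of size `m` is one of the equations `x_i x_j = x_l`, `x_i + x_j = x_l`, `x_i = 1` with
`i, j, l < m`; the relations are numbered, the number of `r` is `ν(r)` (`relNum`). Let `G_m` be the
following polynomial with integral coefficients (`univG ℤ m`). There are variables `x_i` and `z_ij` for
`i, j < m`, a variable `c_r` for every relation `r`, and variables `y_{r,l}` for all relations `r` and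
`l < (m + 1) 2 ^ ν(r)`. The equations (`eqnG`) are

  `z_ij - x_i x_j`,  `c_r ^ 2 - c_r`,  `c_r ρ_r`,  `(1 - c_r) y_{r,l}`,

where `ρ_r` is the linear polynomial `z_ij - x_l`, `x_i + x_j - x_l` or `x_i - 1` of the relation.
`G_m` is the sum of the equations multiplied by further variables `t_e`, one for each equation. It has
degree three. Let `C_m` be the affine cubic hypersurface `G_m = 1` (`cubG R m` over the ring `R`); it is
smooth over the integers.

Let `p` be a prime number. For a smooth projective scheme `Y` over `ℚ` let `A^n(Y) = CH^n(Y) ⊗ ℚ`, and let
`B^n_p(Y)` be the image of `A^n(Y)` in `H^{2n}_cont(Y, ℚ_p(n)) / F^2`, where `F` is the filtration of the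
Hochschild-Serre spectral sequence. Both are additive functors of the Chow motive of `Y`, and the kernel
of the surjection `A^n(Y) → B^n_p(Y)` is the kernel of `AJ_p : CH^n(Y)^0_ℚ → H^1(ℚ, V^{2n-1}_p(Y))`.

For a separated scheme `X` of finite type over `ℚ` let `W(X)` be the weight complex (Gillet, Soulé; a
complex of Chow motives over `ℚ` with rational coefficients, for the cohomology with compact supports;
`W(X) = h(X)` for smooth projective `X`), and put `A^{n,i}(X) = H^i(A^n(W(X)))` and
`B_p^{n,i}(X) = H^i(B_p^n(W(X)))`. `BijAt (C p) Prod.fst n X` says that the maps
`A^{n,i}(X) → B_p^{n,i}(X)` are isomorphisms for this `n` and all `i`. For smooth projective `Y` over `ℚ`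
it says that `AJ_p` is injective on `CH^n(Y)^0`. `AllFields D p n` says that `AJ_p` is injective on
`CH^n(Y)^0` for all number fields `K` and all smooth projective schemes `Y` over `K` (they are smooth
projective schemes over `ℚ`); question Q1 is the statement for all `n` and `p`, as a motive `(X, e, r)` is
a direct factor of `(X, 1, r)`.

**Theorem.** Let `E_m` be the number of the equations, and for `N ∈ ℕ` let
`idx m n N = n + (m + 1) N + E_m - 1`.

(1) For each prime `p` and each `n ≥ 0`, the maps `AJ_p` are injective on `CH^n(Y)^0` for all number
fields `K` and all smooth projective `Y` over `K` if and only if the maps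
`A^{idx m n N, i}(C_m) → B_p^{idx m n N, i}(C_m)` are isomorphisms for all `N` and `i`, for infinitely many
`m`. The first open case is `n = 2`.

(2) The hypersurfaces `C_m` decide the statements (`Decides`): for every affine scheme `Spec B` of finite
type over `ℚ` and all large `m` there is an `N` such that for `0 ≤ n ≤ m` the statement with the index
`n` for `Spec B` is equivalent to the one with the index `idx m n N` for `C_m`; and for every separated
scheme `X` of finite type and all large `m`, the statements for `C_m` imply the statements for `X`.

(3) For `n ≤ 1` (divisors) the maps with the indices `idx m n N` are isomorphisms for `C_m`, for all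
`m ≥ 1` and `N`.

(4) `G_m` has integral coefficients and degree at most three, and `C_m` is smooth over all rings.

The hypotheses are standard: localisation sequences, affine bundles and products with `𝔾_m`
(`IsWeightPair`); the weight complex of a scheme of dimension at most `d` consists of direct factors of
motives of smooth projective varieties of dimension at most `d`, so that the groups vanish outside of
the codimensions `0, …, d` (`PVanish`, `GenAt`).
The data of the problem (`AbelJacobi`, `Describes`, `AllFields`) are those of the library's theorem
`CodimensionByCodimension`.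

Idea of the proof. The projection of `C_m` to the affine space with the coordinates `x, z, c, y` is an
affine bundle over the complement of the zero set `W_m` of the equations. The scheme `W_m` is the
disjoint union, over all sets `s` of relations (`c_r = 1` for `r ∈ s` and `c_r = 0` for the others), of
the products `X_s × 𝔸 ^ ((m + 1) N(s))`, where `X_s` is the affine scheme defined by the relations in
`s` and `N(s) = ∑_{r ∈ s} 2 ^ ν(r)`. The numbers `N(s)` are different, and the dimension of `X_s` is at
most `m`. So the invariant of `W_m` with the index `q + (m + 1) N(s)`, `0 ≤ q ≤ m`, is the invariant of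
`X_s` with the index `q`; the other components do not contribute. Every affine scheme of finite type
over a prime field is an `X_s`, for all large `m`.

The universal system of relations is the one of helper854 (`Pool.Agent.H854.SQ`).
-/

set_option autoImplicit false

open CategoryTheory CategoryTheory.Limits AlgebraicGeometry Pool.Agent.Y116.UV Pool.Agent.Z125.UN
  Pool.Agent.Q193.LT Pool.Agent.Q49.WU Pool.Agent.H854.SQ Pool.Agent.H367.OS
  Pool.Agent.Results.MP_386e47_ag.CodimensionByCodimension

universe w w'



namespace Pool.Agent.Results.MP_386e47_ag.OneSequenceOverTheIntegers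

/-- **The `p`-adic étale Abel-Jacobi map and one sequence of cubic hypersurfaces over the integers.** See
the explanations above. Known cases that are used: the point, and the indices `N ≤ 1` (divisors). -/
theorem result {D : AbelJacobi.{w'}} {C : Nat.Primes → PairData.{w} ℚ (ℤ × ℤ) ℚ}
    (h : ∀ p, Describes D p (C p)) (weight : ∀ p, IsWeightPair (C p))
    (vanish : ∀ p, PVanish (C p) Prod.fst) (generated : ∀ p, GenAt (C p) Prod.fst)
    (point : ∀ p, BijAll (C p) (aff ℚ ℚ))
    (divisors : ∀ p, ∀ N : ℤ, N ≤ 1 → ∀ Y : Sch ℚ, SmoothProj Y → BijAt (C p) Prod.fst N Y)
    (p : Nat.Primes) :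
    (∀ n : ℕ, AllFields D p n ↔
      ∃ᶠ m in Filter.atTop, ∀ N : ℕ, BijAt (C p) Prod.fst (idx m n N) (cubG ℚ m)) ∧
    Decides (BijAt (C p) Prod.fst) ∧
    (∀ n : ℕ, n ≤ 1 → ∀ m, 1 ≤ m → ∀ N : ℕ, BijAt (C p) Prod.fst (idx m n N) (cubG ℚ m)) ∧
    ∀ m : ℕ, (univG ℤ m).totalDegree ≤ 3 ∧
      ∀ (R : Type) [CommRing R], MvPolynomial.map (Int.castRingHom R) (univG ℤ m) = univG R m ∧
        Smooth (cubG R m).hom := by
  have hd : Decides (BijAt (C p) Prod.fst) :=
    decides_pair isPrimeField_rat (generated p) (weight p) graded_weight (vanish p) (point p)
  refine ⟨fun n => Iff.trans ?_ ((hd.index n).out 1 0), hd, fun n hn m hm N => ?_, cubG_facts⟩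
  · constructor
    · intro g Y hY
      exact ((h p).kernel n Y hY).mp (g ℚ Y hY)
    · intro g K _ _ Y hY
      have h1 := (h p).smoothProj K Y hY
      exact ((h p).shapiro n K Y hY).mp (((h p).kernel n _ h1).mpr (g _ h1))
  · exact known_indices (graduated_pair (weight p) graded_weight (vanish p) (point p))
      (generated p n) (divisors p n (by exact_mod_cast hn)) (hn.trans hm) N

end Pool.Agent.Results.MP_386e47_ag.OneSequenceOverTheIntegers
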